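import Pool.Agent.Q34.ApproxF

set_option autoImplicit false

open PowerSeries Module TensorProduct

namespace Pool.Agent.Results.MP_a8f336_ag.DegreeZero

universe u

/-- `𝒜` is an abstract smoothing of the finite `k`-algebra `A`: a finite flat `k⟦t⟧`-algebra whose
generic fibre `𝒜 ⊗ k((t))` is geometrically reduced and whose special fibre `𝒜 / t𝒜` is isomorphic
to `A` as a `k`-algebra (there is a surjective ring homomorphism `𝒜 → A` with kernel `t𝒜` which is
`k`-linear). -/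
structure IsAbstractSmoothing (k : Type u) [Field k] (A : Type u) [CommRing A] [Algebra k A]
    (𝒜 : Type u) [CommRing 𝒜] [Algebra k⟦X⟧ 𝒜] : Prop where
  finite : Module.Finite k⟦X⟧ 𝒜
  flat : Module.Flat k⟦X⟧ 𝒜
  genericFibre :
    Algebra.IsGeometricallyReduced (LaurentSeries k) (LaurentSeries k ⊗[k⟦X⟧] 𝒜)
  specialFibre : ∃ π : 𝒜 →+* A, Function.Surjective π ∧
    RingHom.ker π = Ideal.span {algebraMap k⟦X⟧ 𝒜 X} ∧
    ∀ a : k, π (algebraMap k⟦X⟧ 𝒜 (C a)) = algebraMap k A a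

/-- `𝒜` is completely split of degree `d`: its generic fibre is the product of `d` copies of
`k((t))`. -/
def CompletelySplit (k : Type u) [Field k] (d : ℕ) (𝒜 : Type u) [CommRing 𝒜]
    [Algebra k⟦X⟧ 𝒜] : Prop :=
  Nonempty (LaurentSeries k ⊗[k⟦X⟧] 𝒜 ≃ₐ[LaurentSeries k] (Fin d → LaurentSeries k))

/-- The approximation degree of `𝒜` is at most `N`: some `k⟦t⟧`-basis of `𝒜` has all nonzero
structure constants of valuation at most `N`. -/
def ApproximationDegreeAtMost (k : Type u) [Field k] (𝒜 : Type u) [CommRing 𝒜]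
    [Algebra k⟦X⟧ 𝒜] (N : ℕ) : Prop :=
  ∃ (d : ℕ) (e : Basis (Fin d) k⟦X⟧ 𝒜), ∀ i j l : Fin d,
    e.repr (e i * e j) l ≠ 0 → (e.repr (e i * e j) l).order ≤ N

/-- Let `A` be a finite algebra of degree `d` over an algebraically closed field `k`. Every abstract
smoothing of `A` has a `k⟦t⟧`-basis all of whose structure constants are units, so its
approximation degree is zero. If `A` is smoothable (has an abstract smoothing), then it has a
completely split abstract smoothing of approximation degree zero. -/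
theorem result (k : Type u) [Field k] [IsAlgClosed k] (A : Type u) [CommRing A] [Algebra k A]
    [Module.Finite k A] :
    (∀ (𝒜 : Type u) [CommRing 𝒜] [Algebra k⟦X⟧ 𝒜], IsAbstractSmoothing k A 𝒜 →
      ∃ e : Basis (Fin (finrank k A)) k⟦X⟧ 𝒜, ∀ i j l, IsUnit (e.repr (e i * e j) l)) ∧
    ((∃ (𝒜 : Type u) (_ : CommRing 𝒜) (_ : Algebra k⟦X⟧ 𝒜), IsAbstractSmoothing k A 𝒜) →
      ∃ (𝒜 : Type u) (_ : CommRing 𝒜) (_ : Algebra k⟦X⟧ 𝒜), IsAbstractSmoothing k A 𝒜 ∧
        CompletelySplit k (finrank k A) 𝒜 ∧ ApproximationDegreeAtMost k 𝒜 0) := by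
  have hinf : Infinite k := IsAlgClosed.instInfinite
  have part1 : ∀ (𝒜 : Type u) [CommRing 𝒜] [Algebra k⟦X⟧ 𝒜], IsAbstractSmoothing k A 𝒜 →
      ∃ e : Basis (Fin (finrank k A)) k⟦X⟧ 𝒜, ∀ i j l, IsUnit (e.repr (e i * e j) l) := by
    intro 𝒜 _ _ h
    obtain ⟨π, h1, h2, h3⟩ := h.specialFibre
    have := h.finite
    have := h.flat
    exact Q34.Approx.exists_basis_units π h1 h2 h3
  refine ⟨part1, ?_⟩
  rintro ⟨𝒜, i1, i2, h⟩
  have hfin := h.finite
  have hflat := h.flat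
  have hred := h.genericFibre
  obtain ⟨e0, -⟩ := part1 𝒜 h
  obtain ⟨π, h1, h2, h3⟩ := h.specialFibre
  obtain ⟨θ, hθ1, hθ2, hθ3, d, E, g, hg, hdet⟩ := Q34.Approx.exists_splitting (k := k) (B := 𝒜)
  have hd : d = finrank k A := by
    have := (Module.finrank_eq_card_basis E).symm.trans (Module.finrank_eq_card_basis e0)
    simpa using this
  subst hd
  -- base change along `θ`
  obtain ⟨ℬ, j1, j2, q1, q2, q3, q4, q5⟩ := @Q34.Approx.exists_base_change k A k⟦X⟧ 𝒜 _ _ _ _ _ _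
    hfin hflat θ.toAlgebra (constantCoeff (R := k)) (fun a => ⟨C a, constantCoeff_C a⟩) hθ3 X
    (by
      ext f
      rw [RingHom.mem_ker, Ideal.mem_span_singleton, PowerSeries.X_dvd_iff]) π h1 h2
    (fun f => Q34.Approx.pi_algebraMap π h2 h3 f) _ E g hg hdet
  have hs : IsAbstractSmoothing k A ℬ := ⟨q1, q2, q3, q4⟩
  obtain ⟨e, he⟩ := part1 ℬ hs
  refine ⟨ℬ, j1, j2, hs, q5, finrank k A, e, fun i j l _ => ?_⟩
  have h5 := PowerSeries.isUnit_iff_constantCoeff.mp (he i j l)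
  rw [PowerSeries.order_zero_of_unit (he i j l)]
  exact le_rfl

end Pool.Agent.Results.MP_a8f336_ag.DegreeZero
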